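import Pool.Agent.N418.CZ.Stm

/-! # Project CZ: trace functions versus permutation matrices (AT) -/

set_option autoImplicit false
set_option maxHeartbeats 400000

namespace Pool.Agent.N721.CZ.At

open Module Pool.Agent.N418.CZ

/-- evaluation at matrix units -/
noncomputable def Ev (k n : ℕ) :
    ((Fin n → Mk k) → ℝ) →ₗ[ℝ] Matrix (Fin n → Fin k) (Fin n → Fin k) ℝ where
  toFun φ := Matrix.of fun a b => φ (EE a b)
  map_add' a b := by ext; simp
  map_smul' c a := by ext; simp

theorem Ev_tr {k n : ℕ} (σ : Equiv.Perm (Fin n)) :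
    Ev k n (tr (k := k) (ι := Fin n) σ) = Pi (k := k) (n := n) σ := by
  ext a b
  show tr σ (EE a b) = Pi σ a b
  unfold tr
  rw [Finset.sum_eq_single a]
  · unfold Pi EE
    rw [Matrix.of_apply]
    split_ifs with h
    · apply Finset.prod_eq_one
      intro s _
      rw [h]
      simp
    · obtain ⟨s, hs⟩ : ∃ s, b s ≠ a (σ s) := by
        by_contra hcon
        push Not at hcon
        exact h (funext hcon)
      apply Finset.prod_eq_zero (Finset.mem_univ s)
      rw [Matrix.single_apply]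
      rw [if_neg]
      rintro ⟨-, h2⟩
      exact hs h2
  · intro i _ hi
    obtain ⟨s, hs⟩ : ∃ s, i s ≠ a s := by
      by_contra hcon
      push Not at hcon
      exact hi (funext hcon)
    apply Finset.prod_eq_zero (Finset.mem_univ s)
    unfold EE
    rw [Matrix.single_apply, if_neg]
    rintro ⟨h2, -⟩
    exact hs h2.symm
  · intro h
    exact absurd (Finset.mem_univ _) h

/-- the multilinear functions -/
noncomputable def ML (k n : ℕ) : Submodule ℝ ((Fin n → Mk k) → ℝ) where
  carrier := {φ | ∃ f : MultilinearMap ℝ (fun _ : Fin n => Mk k) ℝ, ∀ x, f x = φ x}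
  add_mem' := by
    rintro a b ⟨f, hf⟩ ⟨g, hg⟩
    exact ⟨f + g, fun x => by rw [MultilinearMap.add_apply, hf, hg]; rfl⟩
  zero_mem' := ⟨0, fun x => rfl⟩
  smul_mem' := by
    rintro c a ⟨f, hf⟩
    exact ⟨c • f, fun x => by rw [MultilinearMap.smul_apply, hf]; rfl⟩

theorem tr_ML {k n : ℕ} (σ : Equiv.Perm (Fin n)) : tr (k := k) (ι := Fin n) σ ∈ ML k n := by
  refine ⟨∑ i : Fin n → Fin k, (MultilinearMap.mkPiAlgebra ℝ (Fin n) ℝ).compLinearMap
    (fun s => Matrix.entryLinearMap ℝ ℝ (i s) (i (σ s))), fun x => ?_⟩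
  unfold tr
  rw [MultilinearMap.sum_apply]
  rfl

theorem T_le {k n : ℕ} : T k (Fin n) ≤ ML k n := by
  unfold T
  rw [Submodule.span_le]
  rintro _ ⟨σ, rfl⟩
  exact tr_ML σ

theorem inj {k n : ℕ} {φ : (Fin n → Mk k) → ℝ} (hφ : φ ∈ ML k n) (h : Ev k n φ = 0) : φ = 0 := by
  obtain ⟨f, hf⟩ := hφ
  have hf0 : f = 0 := by
    refine Module.Basis.ext_multilinear (fun _ => Matrix.stdBasis ℝ (Fin k) (Fin k)) fun v => ?_
    rw [hf]
    have h2 := congrFun (congrFun h (fun s => (v s).1)) (fun s => (v s).2)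
    have h3 : Ev k n φ (fun s => (v s).1) (fun s => (v s).2) =
        φ (EE (fun s => (v s).1) (fun s => (v s).2)) := rfl
    rw [h3] at h2
    have h4 : (fun i => (Matrix.stdBasis ℝ (Fin k) (Fin k)) (v i)) =
        EE (fun s => (v s).1) (fun s => (v s).2) := by
      funext s
      unfold EE
      rw [← Matrix.stdBasis_eq_single]
    rw [h4, h2]
    rfl
  funext x
  rw [← hf, hf0]
  rfl

theorem t_AT : S_AT := by
  intro k n
  have hmap : (T k (Fin n)).map (Ev k n) = A k n := by
    unfold T A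
    rw [Submodule.map_span, ← Set.range_comp]
    congr 1
    ext M
    constructor
    · rintro ⟨σ, rfl⟩
      exact ⟨σ, (Ev_tr σ).symm⟩
    · rintro ⟨σ, rfl⟩
      exact ⟨σ, Ev_tr σ⟩
  have hinj : Function.Injective ((Ev k n).domRestrict (T k (Fin n))) := by
    rw [injective_iff_map_eq_zero]
    rintro ⟨φ, hφ⟩ h
    have : φ = 0 := inj (T_le hφ) h
    exact Subtype.ext this
  have h1 := LinearMap.finrank_range_of_inj hinj
  rw [LinearMap.range_domRestrict, hmap] at h1
  exact h1.symm

end Pool.Agent.N721.CZ.At
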